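import Pool.Agent.L0h45.NF.Bas

/-!
# NF, module BOXI: the number of the forms with given invariant `I` in a box
-/

set_option autoImplicit false

open NumberField

namespace Pool.Agent.L0h71.NF

open Pool.Agent.L0h45.NF
open Pool.Agent.L0h45.AR (Q4)

variable {F : Type} [Field F] [NumberField F]

/-- integers with bounded conjugates -/
theorem count (hB : S_BOX) {R : ℝ} (hR : 1 ≤ R) (S : Finset (𝓞 F)) (hS : ∀ x ∈ S, Bd x R) :
    (S.card : ℝ) ≤ 16 * (2 ^ Module.finrank ℚ F + 1) * R ^ Module.finrank ℚ F := by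
  have h1 := hB F ⊤ top_ne_bot (fun _ => 2 * R) (fun _ => by linarith) S (by
    intro x hx y hy
    refine ⟨Submodule.mem_top, fun σ => ?_⟩
    have := (hS x hx).sub (hS y hy) σ
    linarith)
  have hN : NI (⊤ : Ideal (𝓞 F)) = 1 := by
    unfold NI
    rw [← Ideal.one_eq_top, map_one, Nat.cast_one]
  rw [hN, div_one, Finset.prod_const, Finset.card_univ, card_emb, mul_pow] at h1
  have h2 : 1 ≤ R ^ Module.finrank ℚ F := one_le_pow₀ hR
  nlinarith

theorem Bd_twelve {a : 𝓞 F} {R : ℝ} (h : Bd a R) : Bd (12 * a) (12 * R) := by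
  intro σ
  have h1 : σ ((12 * a : 𝓞 F) : F) = 12 * σ (a : F) := by
    have : ((12 * a : 𝓞 F) : F) = 12 * (a : F) := by
      push_cast
      rfl
    rw [this, map_mul, map_ofNat]
  rw [h1, norm_mul]
  have h2 : ‖(12 : ℂ)‖ = 12 := by norm_num
  rw [h2]
  exact mul_le_mul_of_nonneg_left (h σ) (by norm_num)

/-- the forms with given `a`, `b` -/
theorem fib (hC : S_CSQ) (hD : S_DE) {j : ℕ} {L : ℝ} {ν a b : 𝓞 F} {S : Finset (Q4 (𝓞 F))}
    (ha : a ≠ 0) (hb : b ≠ 0) (hL1 : 1 ≤ L)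
    (hS : ∀ G ∈ S, G.a = a ∧ G.b = b ∧ G.I = ν ∧ Box L j G) :
    (S.card : ℝ) ≤ 512 * (2 ^ Module.finrank ℚ F + 12 ^ Module.finrank ℚ F) *
      ((L ^ Module.finrank ℚ F) ^ 2 * (8 ^ j) ^ Module.finrank ℚ F) *
      (tau (gd a b) * √(NI (gd a b)) / √(Nm a * Nm b)) := by
  classical
  set n := Module.finrank ℚ F with hn
  have hta : 0 ≤ tau (gd a b) := Nat.cast_nonneg _
  have hNa : 0 < Nm a := Nm_pos ha
  have hNb : 0 < Nm b := Nm_pos hb
  have hNab : 0 < √(Nm a * Nm b) := Real.sqrt_pos.2 (mul_pos hNa hNb)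
  rcases S.eq_empty_or_nonempty with he | ⟨G0, hG0⟩
  · rw [he, Finset.card_empty, Nat.cast_zero]
    positivity
  obtain ⟨a0, b0, -, hbox0⟩ := hS G0 hG0
  obtain ⟨hBa, hBb, -, -, -⟩ := hbox0
  rw [a0] at hBa
  rw [b0] at hBb
  have hL0 : 0 < L := by linarith
  have hLn : 1 ≤ L ^ n := one_le_pow₀ hL1
  have h8 : (1 : ℝ) ≤ (8 ^ j) ^ n := one_le_pow₀ (one_le_pow₀ (by norm_num))
  have h12a : (12 : 𝓞 F) * a ≠ 0 := mul_ne_zero (by norm_num) ha
  have hmem : (12 : 𝓞 F) * a ∈ gd a b := Ideal.subset_span (by simp)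
  have hgd : gd a b ≠ ⊥ := by
    intro h0
    rw [h0, Ideal.mem_bot] at hmem
    exact h12a hmem
  have hg1 : 1 ≤ NI (gd a b) := NI_ge_one hgd
  have hg0 : 0 < NI (gd a b) := by linarith
  have hgL : NI (gd a b) ≤ (12 * L) ^ n := by
    refine (NI_le_Nm hmem h12a).trans ((Nm_le (Bd_twelve hBa)).trans ?_)
    apply pow_le_pow_left₀ (by positivity)
    apply mul_le_mul_of_nonneg_left _ (by norm_num)
    exact div_le_self hL0.le (one_le_pow₀ (by norm_num))
  have hs0 : 0 < √(NI (gd a b)) := Real.sqrt_pos.2 hg0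
  have hss : √(NI (gd a b)) * √(NI (gd a b)) = NI (gd a b) := Real.mul_self_sqrt hg0.le
  -- the number of the `c`
  have hcc : ((S.image Q4.c).card : ℝ) ≤ 16 * tau (gd a b) * ((2 ^ n + 12 ^ n) *
      (L ^ n / √(NI (gd a b)))) := by
    have h1 := hC F (gd a b) hgd ν L hL0 (S.image Q4.c) (by
      intro c hc
      rw [Finset.mem_image] at hc
      obtain ⟨G, hG, rfl⟩ := hc
      obtain ⟨f1, f2, f3, f4⟩ := hS G hG
      refine ⟨?_, f4.2.2.1⟩
      unfold Q4.I at f3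
      rw [f1, f2] at f3
      have e1 : G.c ^ 2 - ν = G.d * (3 * b) - G.e * (12 * a) := by
        rw [← f3]; ring
      rw [e1]
      exact Ideal.sub_mem _ (Ideal.mul_mem_left _ _ (Ideal.subset_span (by simp)))
        (Ideal.mul_mem_left _ _ hmem))
    refine h1.trans (mul_le_mul_of_nonneg_left ?_ (by positivity))
    have h2 : √(NI (gd a b)) ≤ 12 ^ n * L ^ n := by
      have h3 : √(NI (gd a b)) ≤ NI (gd a b) := by
        have : 1 ≤ √(NI (gd a b)) := Real.one_le_sqrt.2 hg1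
        nlinarith
      rw [← mul_pow]
      exact h3.trans hgL
    have h4 : 1 ≤ 12 ^ n * L ^ n / √(NI (gd a b)) := (one_le_div hs0).2 h2
    have e2 : (2 * L) ^ n / √(NI (gd a b)) = 2 ^ n * (L ^ n / √(NI (gd a b))) := by
      rw [mul_pow]; ring
    have e3 : 12 ^ n * L ^ n / √(NI (gd a b)) = 12 ^ n * (L ^ n / √(NI (gd a b))) := by ring
    rw [e2]
    rw [e3] at h4
    linarith
  -- the number of the forms for given `c`
  set X : ℝ := NI (gd a b) * (L ^ n * (8 ^ j) ^ n) / √(Nm a * Nm b) with hX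
  have hfc : ∀ c ∈ S.image Q4.c, (((S.filter fun G => G.c = c).card : ℕ) : ℝ) ≤ 32 * X := by
    intro c _
    have e1 : ((S.filter fun G => G.c = c).image fun G => (G.d, G.e)).card =
        (S.filter fun G => G.c = c).card := by
      apply Finset.card_image_of_injOn
      intro G hG H hH he
      rw [Finset.mem_coe, Finset.mem_filter] at hG hH
      obtain ⟨f1, f2, -, -⟩ := hS G hG.1
      obtain ⟨g1, g2, -, -⟩ := hS H hH.1
      simp only [Prod.mk.injEq] at he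
      exact Q4.ext (f1.trans g1.symm) (f2.trans g2.symm) (hG.2.trans hH.2.symm) he.1 he.2
    have h1 := hD F a b (ν - c ^ 2) ha hb (L * 4 ^ j) (L * 16 ^ j) (by positivity) (by positivity)
      ((S.filter fun G => G.c = c).image fun G => (G.d, G.e)) (by
        intro z hz
        rw [Finset.mem_image] at hz
        obtain ⟨G, hG, rfl⟩ := hz
        rw [Finset.mem_filter] at hG
        obtain ⟨f1, f2, f3, f4⟩ := hS G hG.1
        refine ⟨?_, f4.2.2.2.1, f4.2.2.2.2⟩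
        unfold Q4.I at f3
        rw [f1, f2, hG.2] at f3
        rw [← f3]
        ring)
    rw [e1] at h1
    have e2 : √((L * 4 ^ j * (L * 16 ^ j)) ^ n) = L ^ n * (8 ^ j) ^ n := by
      have : (L * 4 ^ j * (L * 16 ^ j)) ^ n = (L ^ n * (8 ^ j) ^ n) ^ 2 := by
        rw [← mul_pow, ← pow_mul, mul_comm n 2, pow_mul]
        congr 1
        have h64 : (4 : ℝ) ^ j * 16 ^ j = 8 ^ j * 8 ^ j := by
          rw [← mul_pow, ← mul_pow]; norm_num
        linear_combination L ^ 2 * h64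
      rw [this, Real.sqrt_sq (by positivity)]
    rw [e2] at h1
    have hX1 : 1 ≤ X := by
      rw [hX, one_le_div hNab]
      have h2 : √(Nm a * Nm b) ≤ L ^ n := by
        rw [Real.sqrt_le_left (by positivity)]
        have k1 : Nm a ≤ L ^ n := (Nm_le hBa).trans
          (pow_le_pow_left₀ (by positivity) (div_le_self hL0.le (one_le_pow₀ (by norm_num))) n)
        have k2 : Nm b ≤ L ^ n := (Nm_le hBb).trans
          (pow_le_pow_left₀ (by positivity) (div_le_self hL0.le (one_le_pow₀ (by norm_num))) n)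
        rw [sq]
        exact mul_le_mul k1 k2 hNb.le (by positivity)
      calc √(Nm a * Nm b) ≤ L ^ n := h2
        _ ≤ L ^ n * (8 ^ j) ^ n := le_mul_of_one_le_right (by positivity) h8
        _ ≤ NI (gd a b) * (L ^ n * (8 ^ j) ^ n) := le_mul_of_one_le_left (by positivity) hg1
    linarith
  have hsum : (S.card : ℝ) = ∑ c ∈ S.image Q4.c, (((S.filter fun G => G.c = c).card : ℕ) : ℝ) := by
    rw [Finset.card_eq_sum_card_image Q4.c S]
    push_cast
    rfl
  have hX0 : 0 ≤ X := by positivity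
  rw [hsum]
  calc _ ≤ ∑ c ∈ S.image Q4.c, 32 * X := Finset.sum_le_sum hfc
    _ = ((S.image Q4.c).card : ℝ) * (32 * X) := by rw [Finset.sum_const, nsmul_eq_mul]
    _ ≤ 16 * tau (gd a b) * ((2 ^ n + 12 ^ n) * (L ^ n / √(NI (gd a b)))) * (32 * X) :=
        mul_le_mul_of_nonneg_right hcc (by positivity)
    _ = 512 * (2 ^ n + 12 ^ n) * ((L ^ n) ^ 2 * (8 ^ j) ^ n) *
          (tau (gd a b) * (NI (gd a b) / √(NI (gd a b))) / √(Nm a * Nm b)) := by
        rw [hX]; ring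
    _ = _ := by rw [Real.div_sqrt]

/-- the forms with `b = 0` -/
theorem zer (hB : S_BOX) {j : ℕ} {L : ℝ} {ν : 𝓞 F} {S : Finset (Q4 (𝓞 F))} (hL : 1 ≤ L)
    (hS : ∀ G ∈ S, G.a ≠ 0 ∧ G.b = 0 ∧ G.I = ν ∧ Box L j G) :
    (S.card : ℝ) ≤ (16 * (2 ^ Module.finrank ℚ F + 1)) ^ 3 * (L ^ Module.finrank ℚ F) ^ 3 := by
  classical
  set n := Module.finrank ℚ F with hn
  have hL0 : 0 < L := by linarith
  rcases S.eq_empty_or_nonempty with he | ⟨G0, hG0⟩
  · rw [he, Finset.card_empty, Nat.cast_zero]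
    positivity
  have hLj : 1 ≤ L / 16 ^ j := by
    obtain ⟨h1, -, -, h2, -⟩ := hS G0 hG0
    exact Bd.one_le h1 h2
  have h4 : (1 : ℝ) ≤ 4 ^ j := one_le_pow₀ (by norm_num)
  have h1 : S.card ≤ (S.image Q4.a ×ˢ (S.image Q4.c ×ˢ S.image Q4.d)).card := by
    apply Finset.card_le_card_of_injOn (fun G => (G.a, (G.c, G.d)))
    · intro G hG
      rw [Finset.mem_coe] at hG
      rw [Finset.mem_coe, Finset.mem_product, Finset.mem_product]
      exact ⟨Finset.mem_image_of_mem _ hG, Finset.mem_image_of_mem _ hG,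
        Finset.mem_image_of_mem _ hG⟩
    · intro G hG H hH he
      obtain ⟨f1, f2, f3, -⟩ := hS G hG
      obtain ⟨-, g2, g3, -⟩ := hS H hH
      simp only [Prod.mk.injEq] at he
      obtain ⟨e1, e2, e3⟩ := he
      refine Q4.ext e1 (f2.trans g2.symm) e2 e3 ?_
      unfold Q4.I at f3 g3
      rw [← g3, f2, g2, ← e1, ← e2] at f3
      have e4 : (12 * G.a) * G.e = (12 * G.a) * H.e := by linear_combination f3
      exact mul_left_cancel₀ (mul_ne_zero (by norm_num) f1) e4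
  rw [Finset.card_product, Finset.card_product] at h1
  have h2 : (S.card : ℝ) ≤ ((S.image Q4.a).card : ℝ) *
      (((S.image Q4.c).card : ℝ) * ((S.image Q4.d).card : ℝ)) := by
    exact_mod_cast h1
  have k1 : ((S.image Q4.a).card : ℝ) ≤ 16 * (2 ^ n + 1) * (L / 16 ^ j) ^ n := by
    apply count hB hLj
    intro x hx
    rw [Finset.mem_image] at hx
    obtain ⟨G, hG, rfl⟩ := hx
    exact (hS G hG).2.2.2.1
  have k2 : ((S.image Q4.c).card : ℝ) ≤ 16 * (2 ^ n + 1) * L ^ n := by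
    apply count hB hL
    intro x hx
    rw [Finset.mem_image] at hx
    obtain ⟨G, hG, rfl⟩ := hx
    exact (hS G hG).2.2.2.2.2.1
  have k3 : ((S.image Q4.d).card : ℝ) ≤ 16 * (2 ^ n + 1) * (L * 4 ^ j) ^ n := by
    apply count hB (by nlinarith)
    intro x hx
    rw [Finset.mem_image] at hx
    obtain ⟨G, hG, rfl⟩ := hx
    exact (hS G hG).2.2.2.2.2.2.1
  refine h2.trans ?_
  calc _ ≤ (16 * (2 ^ n + 1) * (L / 16 ^ j) ^ n) * ((16 * (2 ^ n + 1) * L ^ n) *
          (16 * (2 ^ n + 1) * (L * 4 ^ j) ^ n)) := by gcongr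
    _ = (16 * (2 ^ n + 1)) ^ 3 * (L ^ n) ^ 3 * ((4 ^ j) ^ n / (16 ^ j) ^ n) := by
        rw [div_pow, mul_pow L]; ring
    _ ≤ (16 * (2 ^ n + 1)) ^ 3 * (L ^ n) ^ 3 * 1 := by
        apply mul_le_mul_of_nonneg_left _ (by positivity)
        rw [div_le_one (by positivity)]
        exact pow_le_pow_left₀ (by positivity) (pow_le_pow_left₀ (by norm_num) (by norm_num) j) n
    _ = _ := by ring

/-- **BOXI** -/
theorem boxi (hB : S_BOX) (hC : S_CSQ) (hD : S_DE) (hG : S_GCD) : S_BOXI := by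
  classical
  intro F _ _
  obtain ⟨C, hC0, H⟩ := hG F
  set n := Module.finrank ℚ F with hn
  refine ⟨(16 * (2 ^ n + 1)) ^ 3 + 512 * (2 ^ n + 12 ^ n) * C, by positivity, ?_⟩
  intro j L hL ν S hS
  have hL0 : 0 < L := by linarith
  set S0 := S.filter fun G => G.b = 0 with hS0
  set S1 := S.filter fun G => ¬ G.b = 0 with hS1
  have e0 : S.card = S0.card + S1.card := by
    rw [hS0, hS1, Finset.card_filter_add_card_filter_not]
  have k0 : (S0.card : ℝ) ≤ (16 * (2 ^ n + 1)) ^ 3 * (L ^ n) ^ 3 := by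
    apply zer hB hL (ν := ν) (j := j)
    intro G hG
    rw [hS0, Finset.mem_filter] at hG
    obtain ⟨f1, f2, f3⟩ := hS G hG.1
    exact ⟨f1, hG.2, f2, f3⟩
  have hsum : (S1.card : ℝ) = ∑ z ∈ S1.image fun G => (G.a, G.b),
      (((S1.filter fun G => (G.a, G.b) = z).card : ℕ) : ℝ) := by
    rw [Finset.card_eq_sum_card_image (fun G : Q4 (𝓞 F) => (G.a, G.b)) S1]
    push_cast
    rfl
  have hfib : ∀ z ∈ S1.image fun G => (G.a, G.b),
      (((S1.filter fun G => (G.a, G.b) = z).card : ℕ) : ℝ) ≤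
      512 * (2 ^ n + 12 ^ n) * ((L ^ n) ^ 2 * (8 ^ j) ^ n) *
        (tau (gd z.1 z.2) * √(NI (gd z.1 z.2)) / √(Nm z.1 * Nm z.2)) := by
    intro z hz
    rw [Finset.mem_image] at hz
    obtain ⟨G0, hG0, rfl⟩ := hz
    rw [hS1, Finset.mem_filter] at hG0
    apply fib hC hD (hS G0 hG0.1).1 hG0.2 hL (ν := ν)
    intro G hG
    rw [Finset.mem_filter, hS1, Finset.mem_filter] at hG
    obtain ⟨⟨hG1, hG2⟩, hG3⟩ := hG
    obtain ⟨f1, f2, f3⟩ := hS G hG1
    simp only [Prod.mk.injEq] at hG3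
    exact ⟨hG3.1, hG3.2, f2, f3⟩
  have k1 : (S1.card : ℝ) ≤ 512 * (2 ^ n + 12 ^ n) * C * (L ^ n) ^ 3 := by
    rw [hsum]
    calc _ ≤ ∑ z ∈ S1.image fun G => (G.a, G.b),
            512 * (2 ^ n + 12 ^ n) * ((L ^ n) ^ 2 * (8 ^ j) ^ n) *
              (tau (gd z.1 z.2) * √(NI (gd z.1 z.2)) / √(Nm z.1 * Nm z.2)) :=
          Finset.sum_le_sum hfib
      _ = 512 * (2 ^ n + 12 ^ n) * ((L ^ n) ^ 2 * (8 ^ j) ^ n) *
            ∑ z ∈ S1.image fun G => (G.a, G.b),
              tau (gd z.1 z.2) * √(NI (gd z.1 z.2)) / √(Nm z.1 * Nm z.2) := by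
          rw [Finset.mul_sum]
      _ ≤ 512 * (2 ^ n + 12 ^ n) * ((L ^ n) ^ 2 * (8 ^ j) ^ n) *
            (C * √((L / 16 ^ j * (L / 4 ^ j)) ^ n)) := by
          apply mul_le_mul_of_nonneg_left _ (by positivity)
          apply H (L / 16 ^ j) (L / 4 ^ j) (by positivity) (by positivity)
          intro z hz
          rw [Finset.mem_image] at hz
          obtain ⟨G, hG, rfl⟩ := hz
          rw [hS1, Finset.mem_filter] at hG
          obtain ⟨f1, f2, f3⟩ := hS G hG.1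
          exact ⟨f1, hG.2, f3.1, f3.2.1⟩
      _ = 512 * (2 ^ n + 12 ^ n) * ((L ^ n) ^ 2 * (8 ^ j) ^ n) * (C * (L / 8 ^ j) ^ n) := by
          congr 2
          have : (L / 16 ^ j * (L / 4 ^ j)) ^ n = ((L / 8 ^ j) ^ n) ^ 2 := by
            rw [← pow_mul, mul_comm n 2, pow_mul]
            congr 1
            have h64 : (4 : ℝ) ^ j * 16 ^ j = 8 ^ j * 8 ^ j := by
              rw [← mul_pow, ← mul_pow]; norm_num
            rw [div_mul_div_comm, div_pow, mul_comm ((16 : ℝ) ^ j), h64]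
            ring
          rw [this, Real.sqrt_sq (by positivity)]
      _ = 512 * (2 ^ n + 12 ^ n) * C * (L ^ n) ^ 3 := by
          rw [div_pow]
          field_simp
  rw [e0]
  push_cast
  linarith

end Pool.Agent.L0h71.NF
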