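import Pool.Agent.L0h45.NF.Bas

/-!
# NF, module GCD: the sum over pairs
-/

set_option autoImplicit false

open NumberField

namespace Pool.Agent.L0h71.NF

open Pool.Agent.L0h45.NF

variable {F : Type} [Field F] [NumberField F]

theorem dvd_finite {𝔞 : Ideal (𝓞 F)} (h : 𝔞 ≠ ⊥) : {𝔡 : Ideal (𝓞 F) | 𝔡 ∣ 𝔞}.Finite := by
  have h1 : Fintype (Ideal (𝓞 F))ˣ := Fintype.ofFinite _
  have h2 : Fintype {x // x ∣ 𝔞} := UniqueFactorizationMonoid.fintypeSubtypeDvd 𝔞 h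
  exact Set.finite_coe_iff.1 (inferInstanceAs (Finite {x // x ∣ 𝔞}))

theorem tau_nonneg (𝔞 : Ideal (𝓞 F)) : 0 ≤ tau 𝔞 := Nat.cast_nonneg _

theorem tau_mono {𝔞 𝔟 : Ideal (𝓞 F)} (h : 𝔞 ∣ 𝔟) (hb : 𝔟 ≠ ⊥) : tau 𝔞 ≤ tau 𝔟 := by
  unfold tau
  have := Set.ncard_le_ncard (s := {𝔡 : Ideal (𝓞 F) | 𝔡 ∣ 𝔞}) (t := {𝔡 : Ideal (𝓞 F) | 𝔡 ∣ 𝔟})
    (fun 𝔡 hd => dvd_trans hd h) (dvd_finite hb)
  exact_mod_cast this

theorem tau_mul {𝔞 𝔟 : Ideal (𝓞 F)} (ha : 𝔞 ≠ ⊥) (hb : 𝔟 ≠ ⊥) :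
    tau (𝔞 * 𝔟) ≤ tau 𝔞 * tau 𝔟 := by
  unfold tau
  have h1 : {𝔡 : Ideal (𝓞 F) | 𝔡 ∣ 𝔞 * 𝔟} ⊆ (fun x : Ideal (𝓞 F) × Ideal (𝓞 F) => x.1 * x.2) ''
      ({𝔡 : Ideal (𝓞 F) | 𝔡 ∣ 𝔞} ×ˢ {𝔡 : Ideal (𝓞 F) | 𝔡 ∣ 𝔟}) := by
    intro 𝔡 hd
    obtain ⟨d1, d2, h1, h2, rfl⟩ := exists_dvd_and_dvd_of_dvd_mul hd
    exact ⟨(d1, d2), ⟨h1, h2⟩, rfl⟩
  have hf : ({𝔡 : Ideal (𝓞 F) | 𝔡 ∣ 𝔞} ×ˢ {𝔡 : Ideal (𝓞 F) | 𝔡 ∣ 𝔟}).Finite :=
    (dvd_finite ha).prod (dvd_finite hb)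
  have h2 := (Set.ncard_le_ncard h1 (hf.image _)).trans (Set.ncard_image_le hf)
  rw [Set.ncard_prod] at h2
  exact_mod_cast h2

/-- **GCD** -/
theorem gcd (hS : S_SUMN) (hZ : S_ZETA) : S_GCD := by
  classical
  intro F _ _
  obtain ⟨C1, hC1, H1⟩ := hS F
  obtain ⟨C2, hC2, H2⟩ := hZ F
  set n := Module.finrank ℚ F with hn
  set t12 : ℝ := tau (Ideal.span {(12 : 𝓞 F)}) with ht12
  set N12 : ℝ := NI (Ideal.span {(12 : 𝓞 F)}) with hN12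
  have ht0 : 0 ≤ t12 := tau_nonneg _
  have hN0 : 0 ≤ N12 := Nat.cast_nonneg _
  refine ⟨t12 * √N12 * C1 ^ 2 * C2 + 1, by positivity, ?_⟩
  intro P Q hP hQ S hS
  have h12 : (Ideal.span {(12 : 𝓞 F)}) ≠ ⊥ := by
    rw [Ne, Ideal.span_singleton_eq_bot]
    norm_num
  set h : 𝓞 F × 𝓞 F → Ideal (𝓞 F) := fun z => Ideal.span {z.1, z.2} with hh
  have hmem1 : ∀ z : 𝓞 F × 𝓞 F, z.1 ∈ h z := fun z => Ideal.subset_span (by simp)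
  have hmem2 : ∀ z : 𝓞 F × 𝓞 F, z.2 ∈ h z := fun z => Ideal.subset_span (by simp)
  have hne : ∀ z ∈ S, h z ≠ ⊥ := by
    intro z hz h0
    have h1 := hmem1 z
    rw [h0, Ideal.mem_bot] at h1
    exact (hS z hz).1 h1
  have hle : ∀ z : 𝓞 F × 𝓞 F, Ideal.span {(12 : 𝓞 F)} * h z ≤ gd z.1 z.2 := by
    intro z
    rw [hh]
    simp only []
    rw [Ideal.span_mul_span', Ideal.span_le]
    rintro x ⟨y, hy, w, hw, rfl⟩
    rw [Set.mem_singleton_iff] at hy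
    subst hy
    unfold gd
    simp only [Set.mem_insert_iff, Set.mem_singleton_iff] at hw
    rcases hw with rfl | rfl
    · exact Ideal.subset_span (by simp)
    · have e : (12 : 𝓞 F) * z.2 = 4 * (3 * z.2) := by ring
      show (12 : 𝓞 F) * z.2 ∈ _
      rw [e]
      exact Ideal.mul_mem_left _ _ (Ideal.subset_span (by simp))
  -- the terms
  have hterm : ∀ z ∈ S, tau (gd z.1 z.2) * √(NI (gd z.1 z.2)) / √(Nm z.1 * Nm z.2) ≤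
      t12 * √N12 * (tau (h z) * √(NI (h z))) * ((√(Nm z.1))⁻¹ * (√(Nm z.2))⁻¹) := by
    intro z hz
    have hm : Ideal.span {(12 : 𝓞 F)} * h z ≠ ⊥ := mul_ne_zero h12 (hne z hz)
    have k1 : tau (gd z.1 z.2) ≤ t12 * tau (h z) :=
      (tau_mono (Ideal.dvd_iff_le.2 (hle z)) hm).trans (tau_mul h12 (hne z hz))
    have k2 : √(NI (gd z.1 z.2)) ≤ √N12 * √(NI (h z)) := by
      rw [← Real.sqrt_mul hN0, ← NI_mul]
      exact Real.sqrt_le_sqrt (NI_le_of_le (hle z) hm)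
    have k3 : √(Nm z.1 * Nm z.2) = √(Nm z.1) * √(Nm z.2) := Real.sqrt_mul (Nat.cast_nonneg _) _
    rw [k3, div_eq_mul_inv, mul_inv]
    apply mul_le_mul_of_nonneg_right _ (by positivity)
    calc tau (gd z.1 z.2) * √(NI (gd z.1 z.2)) ≤ (t12 * tau (h z)) * (√N12 * √(NI (h z))) :=
          mul_le_mul k1 k2 (Real.sqrt_nonneg _) (mul_nonneg ht0 (tau_nonneg _))
      _ = _ := by ring
  -- the fibres
  have hfib : ∀ 𝔥 ∈ S.image h, ∑ z ∈ S with h z = 𝔥,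
      t12 * √N12 * (tau (h z) * √(NI (h z))) * ((√(Nm z.1))⁻¹ * (√(Nm z.2))⁻¹) ≤
      t12 * √N12 * C1 ^ 2 * (√(P ^ n) * √(Q ^ n)) * (tau 𝔥 / (NI 𝔥 * √(NI 𝔥))) := by
    intro 𝔥 h𝔥
    rw [Finset.mem_image] at h𝔥
    obtain ⟨z0, hz0, hz0'⟩ := h𝔥
    have h0 : 𝔥 ≠ ⊥ := hz0' ▸ hne z0 hz0
    have hN1 : 1 ≤ NI 𝔥 := NI_ge_one h0
    set S' := S.filter fun z => h z = 𝔥 with hS'
    have hA := H1 𝔥 h0 P hP (S'.image Prod.fst) (by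
      intro a ha
      rw [Finset.mem_image] at ha
      obtain ⟨z, hz, rfl⟩ := ha
      rw [hS', Finset.mem_filter] at hz
      exact ⟨(hS z hz.1).1, hz.2 ▸ hmem1 z, (hS z hz.1).2.2.1⟩)
    have hB := H1 𝔥 h0 Q hQ (S'.image Prod.snd) (by
      intro a ha
      rw [Finset.mem_image] at ha
      obtain ⟨z, hz, rfl⟩ := ha
      rw [hS', Finset.mem_filter] at hz
      exact ⟨(hS z hz.1).2.1, hz.2 ▸ hmem2 z, (hS z hz.1).2.2.2⟩)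
    have hsub : ∑ z ∈ S', ((√(Nm z.1))⁻¹ * (√(Nm z.2))⁻¹) ≤
        (∑ a ∈ S'.image Prod.fst, (√(Nm a))⁻¹) * ∑ b ∈ S'.image Prod.snd, (√(Nm b))⁻¹ := by
      rw [Finset.sum_mul_sum, ← Finset.sum_product']
      apply Finset.sum_le_sum_of_subset_of_nonneg
      · intro z hz
        rw [Finset.mem_product]
        exact ⟨Finset.mem_image_of_mem _ hz, Finset.mem_image_of_mem _ hz⟩
      · intro z _ _
        positivity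
    have hAn : 0 ≤ ∑ a ∈ S'.image Prod.fst, (√(Nm a))⁻¹ :=
      Finset.sum_nonneg fun _ _ => by positivity
    have hBn : 0 ≤ ∑ b ∈ S'.image Prod.snd, (√(Nm b))⁻¹ :=
      Finset.sum_nonneg fun _ _ => by positivity
    have hAB := hsub.trans (mul_le_mul hA hB hBn (hAn.trans hA))
    have e1 : ∑ z ∈ S', t12 * √N12 * (tau (h z) * √(NI (h z))) * ((√(Nm z.1))⁻¹ * (√(Nm z.2))⁻¹) =
        t12 * √N12 * (tau 𝔥 * √(NI 𝔥)) * ∑ z ∈ S', ((√(Nm z.1))⁻¹ * (√(Nm z.2))⁻¹) := by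
      rw [Finset.mul_sum]
      refine Finset.sum_congr rfl fun z hz => ?_
      rw [hS', Finset.mem_filter] at hz
      rw [hz.2]
    rw [e1]
    have hs : √(NI 𝔥) * √(NI 𝔥) = NI 𝔥 := Real.mul_self_sqrt (by linarith)
    have hs0 : 0 < √(NI 𝔥) := Real.sqrt_pos.2 (by linarith)
    have hN0' : 0 < NI 𝔥 := by linarith
    calc t12 * √N12 * (tau 𝔥 * √(NI 𝔥)) * ∑ z ∈ S', ((√(Nm z.1))⁻¹ * (√(Nm z.2))⁻¹)
        ≤ t12 * √N12 * (tau 𝔥 * √(NI 𝔥)) *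
          ((C1 * √(P ^ n) / NI 𝔥) * (C1 * √(Q ^ n) / NI 𝔥)) :=
          mul_le_mul_of_nonneg_left hAB
            (mul_nonneg (mul_nonneg ht0 (Real.sqrt_nonneg _))
              (mul_nonneg (tau_nonneg _) (Real.sqrt_nonneg _)))
      _ = t12 * √N12 * C1 ^ 2 * (√(P ^ n) * √(Q ^ n)) * tau 𝔥 * (√(NI 𝔥) / (NI 𝔥 * NI 𝔥)) := by
          field_simp
      _ = t12 * √N12 * C1 ^ 2 * (√(P ^ n) * √(Q ^ n)) * tau 𝔥 * (1 / (NI 𝔥 * √(NI 𝔥))) := by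
          congr 1
          rw [div_eq_div_iff (by positivity) (by positivity)]
          linear_combination (NI 𝔥) * hs
      _ = _ := by ring
  calc ∑ z ∈ S, tau (gd z.1 z.2) * √(NI (gd z.1 z.2)) / √(Nm z.1 * Nm z.2)
      ≤ ∑ z ∈ S, t12 * √N12 * (tau (h z) * √(NI (h z))) * ((√(Nm z.1))⁻¹ * (√(Nm z.2))⁻¹) :=
        Finset.sum_le_sum hterm
    _ = ∑ 𝔥 ∈ S.image h, ∑ z ∈ S with h z = 𝔥,
          t12 * √N12 * (tau (h z) * √(NI (h z))) * ((√(Nm z.1))⁻¹ * (√(Nm z.2))⁻¹) :=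
        (Finset.sum_fiberwise_of_maps_to (fun z hz => Finset.mem_image_of_mem h hz) _).symm
    _ ≤ ∑ 𝔥 ∈ S.image h, t12 * √N12 * C1 ^ 2 * (√(P ^ n) * √(Q ^ n)) *
          (tau 𝔥 / (NI 𝔥 * √(NI 𝔥))) := Finset.sum_le_sum hfib
    _ = t12 * √N12 * C1 ^ 2 * (√(P ^ n) * √(Q ^ n)) *
          ∑ 𝔥 ∈ S.image h, tau 𝔥 / (NI 𝔥 * √(NI 𝔥)) := by rw [Finset.mul_sum]
    _ ≤ t12 * √N12 * C1 ^ 2 * (√(P ^ n) * √(Q ^ n)) * C2 := by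
        apply mul_le_mul_of_nonneg_left _ (by positivity)
        apply H2
        intro 𝔥 h𝔥
        rw [Finset.mem_image] at h𝔥
        obtain ⟨z, hz, rfl⟩ := h𝔥
        exact hne z hz
    _ = t12 * √N12 * C1 ^ 2 * C2 * √((P * Q) ^ n) := by
        rw [mul_pow, Real.sqrt_mul (by positivity)]
        ring
    _ ≤ (t12 * √N12 * C1 ^ 2 * C2 + 1) * √((P * Q) ^ n) :=
        mul_le_mul_of_nonneg_right (by linarith) (Real.sqrt_nonneg _)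

end Pool.Agent.L0h71.NF
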