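import Pool.Agent.L0h45.NF.Bas

/-!
# NF, module SUMN: the sum of `1 / √N(a)` over the multiples of an ideal
-/

set_option autoImplicit false

open NumberField

namespace Pool.Agent.L0h71.NF

open Pool.Agent.L0h45.NF

/-- **SUMN** -/
theorem sumn (hB : S_BOX) : S_SUMN := by
  classical
  intro F _ _
  set n := Module.finrank ℚ F with hn
  set r : ℝ := √(1 / 2) with hr
  have hr2 : r ^ 2 = 1 / 2 := Real.sq_sqrt (by norm_num)
  have hr0 : 0 ≤ r := Real.sqrt_nonneg _
  have hr1 : r < 1 := by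
    by_contra h
    push Not at h
    nlinarith
  have h1r : 0 < 1 / (1 - r) := by
    have : 0 < 1 - r := by linarith
    positivity
  refine ⟨16 * (2 ^ n + 1) * √(2 ^ n) * (1 / (1 - r)) ^ n, by positivity, ?_⟩
  intro 𝔤 h𝔤 P hP S hS
  have hNg : 1 ≤ NI 𝔤 := NI_ge_one h𝔤
  have hNg0 : 0 < NI 𝔤 := by linarith
  have hcard : Fintype.card (F →+* ℂ) = n := card_emb
  have hk : ∀ a : 𝓞 F, ∃ k : (F →+* ℂ) → ℕ, a ∈ S → ∀ σ : F →+* ℂ,
      P * (1 / 2) ^ (k σ + 1) < ‖σ (a : F)‖ ∧ ‖σ (a : F)‖ ≤ P * (1 / 2) ^ (k σ) := by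
    intro a
    by_cases ha : a ∈ S
    · have h1 : ∀ σ : F →+* ℂ, ∃ k : ℕ, P * (1 / 2) ^ (k + 1) < ‖σ (a : F)‖ ∧
          ‖σ (a : F)‖ ≤ P * (1 / 2) ^ k := by
        intro σ
        obtain ⟨h0, -, hb⟩ := hS a ha
        have hpos : 0 < ‖σ (a : F)‖ := by
          refine norm_pos_iff.2 ((map_ne_zero σ).2 ?_)
          exact_mod_cast h0
        obtain ⟨k, k1, k2⟩ := exists_nat_pow_near_of_lt_one (x := ‖σ (a : F)‖ / P) (y := (1 / 2 : ℝ))
          (by positivity) ((div_le_one hP).2 (hb σ)) (by norm_num) (by norm_num)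
        rw [lt_div_iff₀ hP] at k1
        rw [div_le_iff₀ hP] at k2
        exact ⟨k, by rwa [mul_comm], by rwa [mul_comm]⟩
      choose k hk using h1
      exact ⟨k, fun _ => hk⟩
    · exact ⟨fun _ => 0, fun h => absurd h ha⟩
  choose k hk using hk
  -- the volume
  set V : ((F →+* ℂ) → ℕ) → ℝ := fun m => ∏ σ, (P * (1 / 2) ^ (m σ)) with hV
  have hVpos : ∀ m, 0 < V m := fun m => Finset.prod_pos fun σ _ => by positivity
  have hVsq : ∀ m, √(V m) = √(P ^ n) * ∏ σ, r ^ (m σ) := by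
    intro m
    have h1 : V m = P ^ n * (∏ σ, r ^ (m σ)) ^ 2 := by
      rw [hV]
      simp only []
      rw [Finset.prod_mul_distrib, Finset.prod_const, Finset.card_univ, hcard, ← Finset.prod_pow]
      congr 1
      refine Finset.prod_congr rfl fun σ _ => ?_
      rw [← pow_mul, mul_comm (m σ) 2, pow_mul, hr2]
    rw [h1, Real.sqrt_mul (by positivity), Real.sqrt_sq (Finset.prod_nonneg fun σ _ => by positivity)]
  have hfib : ∀ m, ∑ a ∈ S with k a = m, (√(Nm a))⁻¹ ≤
      16 * (2 ^ n + 1) * √(2 ^ n) * √(V m) / NI 𝔤 := by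
    intro m
    rcases (S.filter fun a => k a = m).eq_empty_or_nonempty with he | ⟨a0, ha0⟩
    · rw [he, Finset.sum_empty]
      positivity
    · have hmem : ∀ a ∈ S.filter (fun a => k a = m), a ≠ 0 ∧ a ∈ 𝔤 ∧ ∀ σ : F →+* ℂ,
          P * (1 / 2) ^ (m σ + 1) < ‖σ (a : F)‖ ∧ ‖σ (a : F)‖ ≤ P * (1 / 2) ^ (m σ) := by
        intro a ha
        rw [Finset.mem_filter] at ha
        obtain ⟨haS, rfl⟩ := ha
        exact ⟨(hS a haS).1, (hS a haS).2.1, hk a haS⟩
      -- the cardinality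
      have hc1 := hB F 𝔤 h𝔤 (fun σ => 2 * (P * (1 / 2) ^ (m σ))) (fun σ => by positivity)
        (S.filter fun a => k a = m) (by
          intro x hx y hy
          obtain ⟨-, hx1, hx2⟩ := hmem x hx
          obtain ⟨-, hy1, hy2⟩ := hmem y hy
          refine ⟨𝔤.sub_mem hx1 hy1, fun σ => ?_⟩
          have h1 : σ ((x - y : 𝓞 F) : F) = σ (x : F) - σ (y : F) := by
            rw [← map_sub]; rfl
          rw [h1]
          have := norm_sub_le (σ (x : F)) (σ (y : F))
          have := (hx2 σ).2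
          have := (hy2 σ).2
          linarith)
      have hprod : ∏ σ : F →+* ℂ, (2 * (P * (1 / 2) ^ (m σ))) = 2 ^ n * V m := by
        rw [Finset.prod_mul_distrib, Finset.prod_const, Finset.card_univ, hcard]
      rw [hprod] at hc1
      have hNV : NI 𝔤 ≤ V m := by
        obtain ⟨h0, h1, h2⟩ := hmem a0 ha0
        refine (NI_le_Nm h1 h0).trans ?_
        rw [← prod_norm]
        exact Finset.prod_le_prod (fun σ _ => norm_nonneg _) fun σ _ => (h2 σ).2
      have hc2 : ((S.filter fun a => k a = m).card : ℝ) ≤ 16 * (2 ^ n + 1) * (V m / NI 𝔤) := by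
        have h1 : 1 ≤ V m / NI 𝔤 := (one_le_div hNg0).2 hNV
        have h2 : 2 ^ n * V m / NI 𝔤 = 2 ^ n * (V m / NI 𝔤) := by ring
        rw [h2] at hc1
        linarith
      have hterm : ∀ a ∈ S.filter (fun a => k a = m), (√(Nm a))⁻¹ ≤ √(2 ^ n) / √(V m) := by
        intro a ha
        obtain ⟨h0, h1, h2⟩ := hmem a ha
        have h3 : V m / 2 ^ n ≤ Nm a := by
          have h4 : V m / 2 ^ n = ∏ σ : F →+* ℂ, (P * (1 / 2) ^ (m σ + 1)) := by
            rw [div_eq_iff (by positivity), ← hcard, ← Finset.card_univ, ← Finset.prod_const,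
              ← Finset.prod_mul_distrib]
            refine Finset.prod_congr rfl fun σ _ => ?_
            rw [pow_succ]
            ring
          rw [h4, ← prod_norm]
          exact Finset.prod_le_prod (fun σ _ => by positivity) fun σ _ => (h2 σ).1.le
        rw [← Real.sqrt_div (by positivity), ← Real.sqrt_inv]
        apply Real.sqrt_le_sqrt
        rw [← inv_div]
        exact inv_anti₀ (by have := hVpos m; positivity) h3
      have hVs : √(V m) ≠ 0 := (Real.sqrt_pos.2 (hVpos m)).ne'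
      calc ∑ a ∈ S with k a = m, (√(Nm a))⁻¹
          ≤ ∑ a ∈ S with k a = m, √(2 ^ n) / √(V m) := Finset.sum_le_sum hterm
        _ = ((S.filter fun a => k a = m).card : ℝ) * (√(2 ^ n) / √(V m)) := by
            rw [Finset.sum_const, nsmul_eq_mul]
        _ ≤ 16 * (2 ^ n + 1) * (V m / NI 𝔤) * (√(2 ^ n) / √(V m)) :=
            mul_le_mul_of_nonneg_right hc2 (by positivity)
        _ = 16 * (2 ^ n + 1) * √(2 ^ n) * (V m / √(V m)) / NI 𝔤 := by ring
        _ = 16 * (2 ^ n + 1) * √(2 ^ n) * √(V m) / NI 𝔤 := by rw [Real.div_sqrt]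
  -- the sum over all `m`
  set K : ℕ := (S.sup fun a => Finset.univ.sup fun σ => k a σ) + 1 with hK
  have hmaps : ∀ a ∈ S, k a ∈ Fintype.piFinset fun _ : F →+* ℂ => Finset.range K := by
    intro a ha
    rw [Fintype.mem_piFinset]
    intro σ
    rw [Finset.mem_range, hK, Nat.lt_succ_iff]
    exact (Finset.le_sup (f := fun σ => k a σ) (Finset.mem_univ σ)).trans
      (Finset.le_sup (f := fun a => Finset.univ.sup fun σ => k a σ) ha)
  have hgeo : ∑ i ∈ Finset.range K, r ^ i ≤ 1 / (1 - r) := by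
    have h2 : 0 < 1 - r := by linarith
    rw [geom_sum_eq hr1.ne, ← neg_div_neg_eq]
    have h3 : -(r ^ K - 1) ≤ 1 := by
      have : 0 ≤ r ^ K := pow_nonneg hr0 K
      linarith
    have h4 : -(r - 1) = 1 - r := by ring
    rw [h4]
    exact div_le_div_of_nonneg_right h3 h2.le
  calc ∑ a ∈ S, (√(Nm a))⁻¹
      = ∑ m ∈ Fintype.piFinset fun _ : F →+* ℂ => Finset.range K,
          ∑ a ∈ S with k a = m, (√(Nm a))⁻¹ := (Finset.sum_fiberwise_of_maps_to hmaps _).symm
    _ ≤ ∑ m ∈ Fintype.piFinset fun _ : F →+* ℂ => Finset.range K,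
          16 * (2 ^ n + 1) * √(2 ^ n) * √(V m) / NI 𝔤 := Finset.sum_le_sum fun m _ => hfib m
    _ = 16 * (2 ^ n + 1) * √(2 ^ n) * √(P ^ n) / NI 𝔤 *
          ∑ m ∈ Fintype.piFinset fun _ : F →+* ℂ => Finset.range K, ∏ σ, r ^ (m σ) := by
        rw [Finset.mul_sum]
        refine Finset.sum_congr rfl fun m _ => ?_
        rw [hVsq]
        ring
    _ = 16 * (2 ^ n + 1) * √(2 ^ n) * √(P ^ n) / NI 𝔤 *
          ∏ σ : F →+* ℂ, ∑ i ∈ Finset.range K, r ^ i := by
        rw [Finset.prod_univ_sum]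
    _ ≤ 16 * (2 ^ n + 1) * √(2 ^ n) * √(P ^ n) / NI 𝔤 * (1 / (1 - r)) ^ n := by
        apply mul_le_mul_of_nonneg_left _ (by positivity)
        rw [Finset.prod_const, Finset.card_univ, hcard]
        exact pow_le_pow_left₀ (Finset.sum_nonneg fun i _ => pow_nonneg hr0 i) hgeo n
    _ = 16 * (2 ^ n + 1) * √(2 ^ n) * (1 / (1 - r)) ^ n * √(P ^ n) / NI 𝔤 := by ring

end Pool.Agent.L0h71.NF
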